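import Pool.Agent.N624.CV.N3

/-! Project CV (helper162), task CV/N (helper624): the proof. -/

set_option autoImplicit false
set_option linter.unusedSectionVars false

open FF Pool.Agent.W603.LV Pool.Agent.Y184.NT Pool.Agent.N162.BC IntermediateField
open Pool.Agent.N162.CV Pool.Agent.Y988.NT

namespace Pool.Agent.N624.CV

section

variable {Ω E : Type} [Field Ω] [Algebra ℂ Ω] [Field E] [Algebra ℂ E] [Algebra Ω E]
  [IsScalarTower ℂ Ω E] [IsAlgClosed Ω] [CharZero Ω] [IsFF Ω E]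

lemma Ge_pow0 {v : Place Ω E} {f : E} (hf : Ge v 0 f) (n : ℕ) : Ge v 0 (f ^ n) := by
  have := hf.pow n
  rwa [mul_zero] at this

/-- the traces vanish -/
lemma trace_zero (ha : StDERa) (hb : StDERb) (hr : StRES)
    {F : MvPolynomial (Fin 4) ℂ} (hs : Sm F) {d : ℕ} (hFd : F.IsHomogeneous d)
    {X : Fin 4 → E} (hX : Good Ω X) (D : Derivation ℂ Ω Ω)
    (δ : Derivation ℂ E E) (hδ : ∀ b, δ (algebraMap Ω E b) = algebraMap Ω E (D b))
    (hδx : δ (X 1) = 0) (dx : Derivation Ω E E) (hdx : dx (X 1) = 1) {h : E}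
    (hh : ∀ c, W c X (fun j => δ (X j)) (fun j => dx (X j)) = grd F X c * h)
    {i j : ℕ} (hij : i + j + 4 ≤ d) :
    Algebra.trace Ω⟮X 1⟯ E (X 2 ^ i * X 3 ^ j * h) = 0 := by
  have hex : ∀ v : Place Ω E, ∃ a : Ω, Ge v 0 (X 1) → Ge v 1 (X 1 - algebraMap Ω E a) := by
    intro v
    by_cases h0 : Ge v 0 (X 1)
    · obtain ⟨a, h1⟩ := exists_const v h0
      exact ⟨a, fun _ => h1⟩
    · exact ⟨0, fun h1 => absurd h1 h0⟩
  choose a hav using hex
  refine (hr Ω E (X 1) hX.tr (X 2 ^ i * X 3 ^ j * h) a (fun _ => 0) hav ?_ ?_).2.2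
    fun _ _ => rfl
  · intro v hv
    have hreg := hX.fin v hv
    have h1 := fin_est ha hb hs hX.one hX.tr D δ hδ hδx dx hdx hh hreg (hav v hv)
    rw [map_zero, sub_zero]
    have h2 := Ge_mul0 (Ge_mul0 (Ge_pow0 (hreg 2) i) (Ge_pow0 (hreg 3) j)) h1
    have e : X 2 ^ i * X 3 ^ j * ((X 1 - algebraMap Ω E (a v)) * h) =
      (X 1 - algebraMap Ω E (a v)) * (X 2 ^ i * X 3 ^ j * h) := by ring
    rwa [e] at h2
  · intro v hv
    have hreg := hX.inf v hv
    have hx0 : X 1 ≠ 0 := by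
      intro h0
      rw [h0, v.ord_zero] at hv
      omega
    have h1 := inf_est ha hb hs hFd D δ hδ hδx dx hdx hh hv hreg (k := i + j) hij
    have e : X 1 * (X 2 ^ i * X 3 ^ j * h) =
        (X 2 / X 1) ^ i * (X 3 / X 1) ^ j * (X 1 ^ (i + j + 1) * h) := by
      rw [div_pow, div_pow, pow_succ, pow_add]
      have h3 : X 1 ^ i ≠ 0 := pow_ne_zero _ hx0
      have h4 : X 1 ^ j ≠ 0 := pow_ne_zero _ hx0
      generalize X 1 ^ i = A at *
      generalize X 1 ^ j = B at *
      field_simp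
    rw [e]
    exact Ge_mul0 (Ge_mul0 (Ge_pow0 (hreg 2) i) (Ge_pow0 (hreg 3) j)) h1

/-- the coordinates are constant -/
lemma delta_X (ha : StDERa) (hb : StDERb) (hr : StRES)
    {F : MvPolynomial (Fin 4) ℂ} (hs : Sm F) {d : ℕ} (hFd : F.IsHomogeneous d)
    {X : Fin 4 → E} (hX : Good Ω X) (hF0 : MvPolynomial.aeval X F = 0)
    (hd : Module.finrank Ω⟮X 1⟯ E + 3 ≤ d) (D : Derivation ℂ Ω Ω)
    (δ : Derivation ℂ E E) (hδ : ∀ b, δ (algebraMap Ω E b) = algebraMap Ω E (D b))
    (hδx : δ (X 1) = 0) (dx : Derivation Ω E E) (hdx : dx (X 1) = 1) (j : Fin 4) :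
    δ (X j) = 0 := by
  haveI : CharZero E := by
    exact charZero_of_injective_algebraMap (algebraMap Ω E).injective
  haveI : FiniteDimensional Ω⟮X 1⟯ E := IsFF.finite hX.tr
  obtain ⟨c0, hc0⟩ := exists_c (n := 2) hs (x := X) (j0 := 0) (by rw [hX.one]; exact one_ne_zero)
  have hA := euler_aeval hFd hF0
  have hB : ∑ l, MvPolynomial.aeval X (MvPolynomial.pderiv l F) * δ (X l) = 0 := by
    rw [← der_aeval, hF0, map_zero]
  have hC : ∑ l, MvPolynomial.aeval X (MvPolynomial.pderiv l F) * dx (X l) = 0 := by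
    have := der_aeval (dx.restrictScalars ℂ) X F
    rw [hF0, map_zero] at this
    exact this.symm
  set h : E := W c0 X (fun j => δ (X j)) (fun j => dx (X j)) with hh0
  have hh : ∀ c, W c X (fun j => δ (X j)) (fun j => dx (X j)) = grd F X c * h := fun c =>
    W_phi _ c c0 X _ _ hc0 hA hB hC
  have hfr : 0 < Module.finrank Ω⟮X 1⟯ E := Module.finrank_pos
  have hz : h = 0 := by
    refine zero_of_trace (L := Ω⟮X 1⟯) (k := d - 4) hX.one (mem_adjoin_simple_self Ω (X 1))
      hX.gen (by omega) fun i j hij => ?_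
    exact trace_zero ha hb hr hs hFd hX D δ hδ hδx dx hdx hh (by omega)
  have hW : ∀ c, W c X (fun j => δ (X j)) (fun j => dx (X j)) = 0 := by
    intro c
    rw [hh c, hz, mul_zero]
  have e0 : δ (X 0) = 0 := by rw [hX.one]; exact Derivation.map_one_eq_zero _
  have e0' : dx (X 0) = 0 := by rw [hX.one]; exact Derivation.map_one_eq_zero _
  have e2 := hW ![0, 0, 0, 1]
  have e3 := hW ![0, 0, 1, 0]
  rw [W_eq] at e2 e3
  simp [e0, e0', hδx, hdx, hX.one] at e2 e3
  fin_cases j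
  · exact e0
  · exact hδx
  · exact e2
  · exact e3

end

theorem n_ (ha : StDERa) (hb : StDERb) (hc : StDERc) (hr : StRES) : StN := by
  intro Ω E _ _ _ _ _ _ F d hs hFd X hX hF0 hd D v p c hv
  letI : Algebra ℂ E := ((algebraMap Ω E).comp (algebraMap ℂ Ω)).toAlgebra
  haveI : IsScalarTower ℂ Ω E := IsScalarTower.of_algebraMap_eq fun _ => rfl
  haveI : CharZero Ω := charZero_of_injective_algebraMap (algebraMap ℂ Ω).injective
  have hF0' : MvPolynomial.aeval X F = 0 := by
    rw [← hF0]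
    unfold N162.CV.cmp
    rw [MvPolynomial.aeval_map_algebraMap]
  obtain ⟨⟨dx, hdx⟩, hex⟩ := hc Ω E (X 1) hX.tr
  choose δ hδ hδx using fun i => hex (D i)
  have hz : ∀ i j, δ i (X j) = 0 := fun i j =>
    delta_X ha hb hr hs hFd hX hF0' hd (D i) (δ i) (hδ i) (hδx i) dx hdx j
  set t : E := X 1 - algebraMap Ω E (p 1) with ht
  have ht0 : t ≠ 0 := by
    intro h0
    apply hX.tr
    rw [sub_eq_zero.1 h0]
    exact isAlgebraic_algebraMap _
  have hto : 0 < v.ord t := by
    rcases hv 1 with h0 | h0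
    · exact absurd h0 ht0
    · exact lt_of_lt_of_le one_pos h0
  have key : ∀ i j, Ge v 1 (algebraMap Ω E (D i (p 1)) * dx (X j) -
      algebraMap Ω E (D i (p j))) := by
    intro i j
    set δ' : Derivation ℂ E E := δ i + algebraMap Ω E (D i (p 1)) • (dx.restrictScalars ℂ)
      with hδ'
    have hδ'a : ∀ g, δ' g = δ i g + algebraMap Ω E (D i (p 1)) * dx g := fun g => rfl
    have hδ'c : ∀ b, δ' (algebraMap Ω E b) = algebraMap Ω E (D i b) := by
      intro b
      rw [hδ'a, hδ, Derivation.map_algebraMap, mul_zero, add_zero]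
    have hδ't : δ' t = 0 := by
      rw [ht, map_sub, hδ'c, hδ'a, hdx, hδx]
      ring
    have h1 := ha Ω E (D i) δ' hδ'c t v hto hδ't 1 _ (hv j)
    rw [map_sub, hδ'c, hδ'a, hz, zero_add] at h1
    exact h1
  have hrel : ∀ j, D 1 (p 1) * D 0 (p j) - D 0 (p 1) * D 1 (p j) = 0 := by
    intro j
    apply const_zero (v := v)
    have h1 := (Ge_mul0 (Ge.const (P := v) (D 0 (p 1))) (key 1 j)).sub
      (Ge_mul0 (Ge.const (P := v) (D 1 (p 1))) (key 0 j))
    convert h1 using 1
    rw [map_sub, map_mul, map_mul]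
    ring
  rw [← Matrix.exists_vecMul_eq_zero_iff]
  by_cases h0 : D 0 (p 1) = 0 ∧ D 1 (p 1) = 0
  · refine ⟨![0, 0, 1, 0], ?_, ?_⟩
    · intro h
      have := congrFun h 2
      simp at this
    · ext j
      have h1 : D 0 (p j) = 0 := by
        have := (key 0 j).neg
        rw [h0.1, map_zero, zero_mul, zero_sub, neg_neg] at this
        exact const_zero this
      simp [Matrix.vecMul, dotProduct, Fin.sum_univ_succ, rows, h1]
  · refine ⟨![0, 0, D 1 (p 1), - D 0 (p 1)], ?_, ?_⟩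
    · intro h
      apply h0
      have h2 := congrFun h 2
      have h3 := congrFun h 3
      simp at h2 h3
      exact ⟨h3, h2⟩
    · ext j
      have h1 := hrel j
      simp [Matrix.vecMul, dotProduct, Fin.sum_univ_succ, rows]
      linear_combination h1

end Pool.Agent.N624.CV
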