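import Pool.Agent.N162.CV.Stm
import Pool.Agent.Y184.NT.Prep

/-! Project CV (helper162), task CV/N (helper624): preliminaries. -/

set_option autoImplicit false
set_option linter.unusedSectionVars false

open FF Pool.Agent.W603.LV Pool.Agent.Y184.NT Pool.Agent.N162.BC IntermediateField
open Pool.Agent.N162.CV

namespace Pool.Agent.N624.CV

/-! ### Determinants -/

section det

variable {E : Type} [CommRing E]

/-- the determinant with the rows `c`, `A`, `B`, `C` -/
def W (c A B C : Fin 4 → E) : E := (Matrix.of ![c, A, B, C]).det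

lemma W_eq (c A B C : Fin 4 → E) : W c A B C =
    c 0 * (A 1 * (B 2 * C 3 - B 3 * C 2) - A 2 * (B 1 * C 3 - B 3 * C 1)
      + A 3 * (B 1 * C 2 - B 2 * C 1))
    - c 1 * (A 0 * (B 2 * C 3 - B 3 * C 2) - A 2 * (B 0 * C 3 - B 3 * C 0)
      + A 3 * (B 0 * C 2 - B 2 * C 0))
    + c 2 * (A 0 * (B 1 * C 3 - B 3 * C 1) - A 1 * (B 0 * C 3 - B 3 * C 0)
      + A 3 * (B 0 * C 1 - B 1 * C 0))
    - c 3 * (A 0 * (B 1 * C 2 - B 2 * C 1) - A 1 * (B 0 * C 2 - B 2 * C 0)
      + A 2 * (B 0 * C 1 - B 1 * C 0)) := by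
  unfold W
  rw [Matrix.det_succ_row_zero]
  simp [Fin.sum_univ_succ, Matrix.det_fin_three, Fin.succAbove, Matrix.submatrix]
  ring

lemma W_add_row (c A B C : Fin 4 → E) (r : E) :
    W c A (fun j => B j + r * C j) C = W c A B C := by
  rw [W_eq, W_eq]
  ring

lemma W_scale (c A B C : Fin 4 → E) (r : E) :
    W c (fun j => r * A j) (fun j => r * B j) (fun j => A j + r * C j) = r ^ 3 * W c A B C := by
  rw [W_eq, W_eq]
  ring

lemma W_mul_last (c A B C : Fin 4 → E) (r : E) : W c A B (fun j => r * C j) = r * W c A B C := by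
  rw [W_eq, W_eq]
  ring

lemma W_sub (c c' A B C : Fin 4 → E) (r : E) :
    W (fun j => c j - r * c' j) A B C = W c A B C - r * W c' A B C := by
  rw [W_eq, W_eq, W_eq]
  ring

end det

section ker

variable {E : Type} [Field E]

lemma W_ker (φ c A B C : Fin 4 → E) (hφ : φ ≠ 0) (hc : ∑ l, φ l * c l = 0)
    (hA : ∑ l, φ l * A l = 0) (hB : ∑ l, φ l * B l = 0) (hC : ∑ l, φ l * C l = 0) :
    W c A B C = 0 := by
  unfold W
  apply Matrix.exists_mulVec_eq_zero_iff.1
  refine ⟨φ, hφ, ?_⟩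
  have key : ∀ v : Fin 4 → E, v ⬝ᵥ φ = ∑ l, φ l * v l := by
    intro v
    rw [dotProduct]
    exact Finset.sum_congr rfl fun l _ => mul_comm _ _
  ext i
  change (Matrix.of ![c, A, B, C]) i ⬝ᵥ φ = 0
  fin_cases i
  · exact (key c).trans hc
  · exact (key A).trans hA
  · exact (key B).trans hB
  · exact (key C).trans hC

lemma W_phi (φ c c0 A B C : Fin 4 → E) (hc0 : ∑ l, φ l * c0 l = 1)
    (hA : ∑ l, φ l * A l = 0) (hB : ∑ l, φ l * B l = 0) (hC : ∑ l, φ l * C l = 0) :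
    W c A B C = (∑ l, φ l * c l) * W c0 A B C := by
  have hφ : φ ≠ 0 := by
    rintro rfl
    simp at hc0
  have h := W_ker φ (fun j => c j - (∑ l, φ l * c l) * c0 j) A B C hφ (by
    have : ∀ j, φ j * (c j - (∑ l, φ l * c l) * c0 j) =
        φ j * c j - (∑ l, φ l * c l) * (φ j * c0 j) := by
      intro j
      ring
    simp only [this]
    rw [Finset.sum_sub_distrib, ← Finset.mul_sum, hc0, mul_one, sub_self]) hA hB hC
  rw [W_sub] at h
  exact sub_eq_zero.1 h

end ker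

/-! ### Orders -/

section ord

variable {Ω E : Type} [Field Ω] [Field E] [Algebra Ω E] {v : Place Ω E}

lemma const_zero {a : Ω} (h : Ge v 1 (algebraMap Ω E a)) : a = 0 := by
  by_contra ha
  rcases h with h | h
  · exact ha ((map_eq_zero _).1 h)
  · rw [v.ord_const ha] at h
    omega

lemma Ge_mul0 {n : ℤ} {f g : E} (hf : Ge v 0 f) (hg : Ge v n g) : Ge v n (f * g) := by
  have := hf.mul hg
  rwa [zero_add] at this

lemma Ge_mul1 {n : ℤ} {f g : E} (hf : Ge v n f) (hg : Ge v 0 g) : Ge v n (f * g) := by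
  have := hf.mul hg
  rwa [add_zero] at this

lemma Ge_det {c A B C : Fin 4 → E} {n : ℤ} (hc : ∀ j, Ge v 0 (c j)) (hA : ∀ j, Ge v 0 (A j))
    (hB : ∀ j, Ge v 0 (B j)) (hC : ∀ j, Ge v n (C j)) : Ge v n (W c A B C) := by
  rw [W_eq]
  have h2 : ∀ i j k l, Ge v n (B i * C j - B k * C l) := fun i j k l =>
    (Ge_mul0 (hB i) (hC j)).sub (Ge_mul0 (hB k) (hC l))
  refine Ge.sub (Ge.add (Ge.sub ?_ ?_) ?_) ?_ <;>
  · refine Ge_mul0 (hc _) ?_
    refine Ge.add (Ge.sub ?_ ?_) ?_ <;>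
    exact Ge_mul0 (hA _) (h2 _ _ _ _)

lemma Ge_inv_one {f : E} (h : Ge v 1 (f - 1)) : f ≠ 0 ∧ Ge v 0 f⁻¹ := by
  have hf : f ≠ 0 := by
    rintro rfl
    rw [zero_sub] at h
    have h1 := h.neg
    rw [neg_neg] at h1
    rcases h1 with h1 | h1
    · exact one_ne_zero h1
    · rw [v.ord_one] at h1
      omega
  refine ⟨hf, Or.inr ?_⟩
  rw [v.ord_inv]
  have h0 : ¬ (1 ≤ v.ord f) := by
    intro h1
    have h2 : Ge v 1 (1 : E) := by
      have := (show Ge v 1 f from Or.inr h1).sub h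
      rwa [sub_sub_cancel] at this
    rcases h2 with h2 | h2
    · exact one_ne_zero h2
    · rw [v.ord_one] at h2
      omega
  omega

/-- congruence of the values of polynomials -/
lemma aeval_congr [Algebra ℂ Ω] [Algebra ℂ E] [IsScalarTower ℂ Ω E] {Y : Fin 4 → E}
    {p : Fin 4 → Ω} (hY : ∀ j, Ge v 0 (Y j)) (hp : ∀ j, Ge v 1 (Y j - algebraMap Ω E (p j)))
    (G : MvPolynomial (Fin 4) ℂ) :
    Ge v 0 (MvPolynomial.aeval Y G) ∧
    Ge v 1 (MvPolynomial.aeval Y G - algebraMap Ω E (MvPolynomial.aeval p G)) := by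
  induction G using MvPolynomial.induction_on with
  | C a =>
    rw [MvPolynomial.aeval_C, MvPolynomial.aeval_C, IsScalarTower.algebraMap_apply ℂ Ω E]
    exact ⟨Ge.const _, by rw [sub_self]; exact Ge.zero⟩
  | add f g hf hg =>
    rw [map_add, map_add, map_add]
    refine ⟨hf.1.add hg.1, ?_⟩
    have := hf.2.add hg.2
    convert this using 1
    ring
  | mul_X f i hf =>
    rw [map_mul, map_mul, map_mul, MvPolynomial.aeval_X, MvPolynomial.aeval_X]
    refine ⟨Ge_mul0 hf.1 (hY i), ?_⟩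
    have h1 := Ge_mul0 hf.1 (hp i)
    have h2 := Ge_mul1 hf.2 (Ge.const (P := v) (p i))
    have := h1.add h2
    convert this using 1
    ring

/-- the logarithmic derivative, for regular functions -/
lemma ge_der [CharZero Ω] [IsAlgClosed Ω] [IsFF Ω E] (hb : StDERb) (δ : Derivation Ω E E) {t : E}
    (ht : 0 < v.ord t) (hδ : δ t = 1) {g : E} (hg : Ge v 0 g) : Ge v 1 (t * δ g) := by
  by_cases hg0 : g = 0
  · subst hg0
    rw [map_zero, mul_zero]
    exact Ge.zero
  have h := hb Ω E δ t v ht hδ g hg0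
  have hN0 : (v.ord t : Ω) ≠ 0 := by
    have : v.ord t ≠ 0 := ht.ne'
    exact_mod_cast this
  have hdiv : ∀ {n : ℤ} {r : E}, Ge v n ((v.ord t : E) * r) → Ge v n r := by
    intro n r hr
    have h1 := Ge_mul0 (Ge.const (P := v) ((v.ord t : Ω)⁻¹)) hr
    have h2 : algebraMap Ω E ((v.ord t : Ω)⁻¹) * ((v.ord t : E) * r) = r := by
      rw [← mul_assoc]
      have : algebraMap Ω E ((v.ord t : Ω)⁻¹) * (v.ord t : E) = 1 := by
        rw [← map_intCast (algebraMap Ω E) (v.ord t), ← map_mul, inv_mul_cancel₀ hN0, map_one]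
      rw [this, one_mul]
    rwa [h2] at h1
  have e : t * δ g = (t * δ g / g) * g := by
    field_simp
  rw [e]
  rcases hg with hg | hg
  · exact absurd hg hg0
  by_cases h1 : v.ord g = 0
  · rw [h1, Int.cast_zero, sub_zero] at h
    exact Ge_mul1 (hdiv h) (Or.inr hg)
  · have h2 : Ge v 0 ((v.ord t : E) * (t * δ g / g)) := by
      have := (h.mono (by norm_num : (0 : ℤ) ≤ 1)).add (Ge.intCast (P := v) (v.ord g))
      rwa [sub_add_cancel] at this
    exact Ge_mul0 (hdiv h2) (Or.inr (by omega))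

end ord

end Pool.Agent.N624.CV
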