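import Pool.Agent.N624.CV.N1

/-! Project CV (helper162), task CV/N (helper624): local estimates. -/

set_option autoImplicit false
set_option linter.unusedSectionVars false

open FF Pool.Agent.W603.LV Pool.Agent.Y184.NT Pool.Agent.N162.BC IntermediateField
open Pool.Agent.N162.CV Pool.Agent.Y988.NT

namespace Pool.Agent.N624.CV

section

variable {Ω E : Type} [Field Ω] [Algebra ℂ Ω] [Field E] [Algebra ℂ E] [Algebra Ω E]
  [IsScalarTower ℂ Ω E] [IsAlgClosed Ω] [CharZero Ω] [IsFF Ω E]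

/-- the gradient at `Y` applied to `c` -/
noncomputable def grd {K : Type} [Field K] [Algebra ℂ K] (F : MvPolynomial (Fin 4) ℂ)
    (Y c : Fin 4 → K) : K :=
  ∑ l, MvPolynomial.aeval Y (MvPolynomial.pderiv l F) * c l

/-- a constant vector with a gradient of value `1` -/
lemma exists_unit_c {F : MvPolynomial (Fin 4) ℂ} (hs : Sm F) {v : Place Ω E} {Y : Fin 4 → E}
    (hY : ∀ j, Ge v 0 (Y j)) {j0 : Fin 4} (hj0 : Y j0 = 1) :
    ∃ c : Fin 4 → Ω, grd F Y (fun l => algebraMap Ω E (c l)) ≠ 0 ∧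
      Ge v 0 (grd F Y fun l => algebraMap Ω E (c l))⁻¹ := by
  choose p hp using fun j => exists_const v (hY j)
  have hp0 : p j0 ≠ 0 := by
    intro h0
    have := hp j0
    rw [hj0, h0, map_zero, sub_zero] at this
    rcases this with h | h
    · exact one_ne_zero h
    · rw [v.ord_one] at h
      omega
  obtain ⟨c, hc⟩ := exists_c (n := 2) hs (x := p) (j0 := j0) hp0
  refine ⟨c, ?_⟩
  have h1 : Ge v 1 (grd F Y (fun l => algebraMap Ω E (c l)) - 1) := by
    have e : grd F Y (fun l => algebraMap Ω E (c l)) - 1 =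
        ∑ l, (MvPolynomial.aeval Y (MvPolynomial.pderiv l F) -
          algebraMap Ω E (MvPolynomial.aeval p (MvPolynomial.pderiv l F))) *
            algebraMap Ω E (c l) := by
      unfold grd
      have h2 := congrArg (algebraMap Ω E) hc
      rw [map_one, map_sum] at h2
      simp only [sub_mul]
      rw [Finset.sum_sub_distrib]
      congr 1
      rw [← h2]
      exact Finset.sum_congr rfl fun l _ => map_mul _ _ _
    rw [e]
    exact Ge.sum _ _ fun l _ => Ge_mul1 (aeval_congr hY hp _).2 (Ge.const _)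
  exact Ge_inv_one h1

lemma fin_est (ha : StDERa) (hb : StDERb) {F : MvPolynomial (Fin 4) ℂ} (hs : Sm F)
    {X : Fin 4 → E} (h1 : X 0 = 1) (htr : Transcendental Ω (X 1)) (D : Derivation ℂ Ω Ω)
    (δ : Derivation ℂ E E) (hδ : ∀ b, δ (algebraMap Ω E b) = algebraMap Ω E (D b))
    (hδx : δ (X 1) = 0) (dx : Derivation Ω E E) (hdx : dx (X 1) = 1) {h : E}
    (hh : ∀ c, W c X (fun j => δ (X j)) (fun j => dx (X j)) = grd F X c * h) {v : Place Ω E}
    (hv : ∀ j, Ge v 0 (X j)) {a : Ω} (hva : Ge v 1 (X 1 - algebraMap Ω E a)) :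
    Ge v 1 ((X 1 - algebraMap Ω E a) * h) := by
  obtain ⟨c, hc0, hc1⟩ := exists_unit_c hs hv h1
  set t : E := X 1 - algebraMap Ω E a with ht
  have ht0 : t ≠ 0 := by
    intro h0
    apply htr
    rw [sub_eq_zero.1 h0]
    exact isAlgebraic_algebraMap a
  have hto : 0 < v.ord t := by
    rcases hva with h0 | h0
    · exact absurd h0 ht0
    · omega
  have hdxt : dx t = 1 := by
    rw [ht, map_sub, hdx, Derivation.map_algebraMap, sub_zero]
  set δ' : Derivation ℂ E E := δ + algebraMap Ω E (D a) • (dx.restrictScalars ℂ) with hδ'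
  have hδ'a : ∀ g, δ' g = δ g + algebraMap Ω E (D a) * dx g := fun g => rfl
  have hδ'c : ∀ b, δ' (algebraMap Ω E b) = algebraMap Ω E (D b) := by
    intro b
    rw [hδ'a, hδ, Derivation.map_algebraMap, mul_zero, add_zero]
  have hδ't : δ' t = 0 := by
    rw [hδ'a, hdxt, ht, map_sub, hδx, hδ]
    ring
  have hreg : ∀ j, Ge v 0 (δ' (X j)) := fun j => ha Ω E D δ' hδ'c t v hto hδ't 0 (X j) (hv j)
  have hlast : ∀ j, Ge v 1 (t * dx (X j)) := fun j => ge_der hb dx hto hdxt (hv j)
  have e : t * h = W (fun l => algebraMap Ω E (c l)) X (fun j => δ' (X j))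
      (fun j => t * dx (X j)) * (grd F X fun l => algebraMap Ω E (c l))⁻¹ := by
    rw [W_mul_last]
    have e1 : W (fun l => algebraMap Ω E (c l)) X (fun j => δ' (X j)) (fun j => dx (X j)) =
        W (fun l => algebraMap Ω E (c l)) X (fun j => δ (X j)) (fun j => dx (X j)) := by
      simp only [hδ'a]
      exact W_add_row _ _ _ _ _
    rw [e1, hh]
    field_simp
  rw [e]
  exact Ge_mul1 (Ge_det (fun j => Ge.const _) hv hreg hlast) hc1

lemma pderiv_hom {F : MvPolynomial (Fin 4) ℂ} {d : ℕ} (hF : F.IsHomogeneous d) (l : Fin 4) :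
    (MvPolynomial.pderiv l F).IsHomogeneous (d - 1) := by
  exact hF.pderiv

lemma inf_est (ha : StDERa) (hb : StDERb) {F : MvPolynomial (Fin 4) ℂ} (hs : Sm F) {d : ℕ}
    (hFd : F.IsHomogeneous d)
    {X : Fin 4 → E} (D : Derivation ℂ Ω Ω)
    (δ : Derivation ℂ E E) (hδ : ∀ b, δ (algebraMap Ω E b) = algebraMap Ω E (D b))
    (hδx : δ (X 1) = 0) (dx : Derivation Ω E E) (hdx : dx (X 1) = 1) {h : E}
    (hh : ∀ c, W c X (fun j => δ (X j)) (fun j => dx (X j)) = grd F X c * h) {v : Place Ω E}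
    (hx : v.ord (X 1) < 0) (hv : ∀ j, Ge v 0 (X j / X 1)) {k : ℕ} (hk : k + 4 ≤ d) :
    Ge v 1 (X 1 ^ (k + 1) * h) := by
  have hx0 : X 1 ≠ 0 := by
    intro h0
    rw [h0, v.ord_zero] at hx
    omega
  set X' : Fin 4 → E := fun j => X j / X 1 with hX'
  have hX'1 : X' 1 = 1 := div_self hx0
  have hXX' : ∀ j, X j = X 1 * X' j := fun j => by
    rw [hX']
    field_simp
  obtain ⟨c, hc0, hc1⟩ := exists_unit_c hs (Y := X') hv hX'1
  set s : E := (X 1)⁻¹ with hs'
  have hso : 0 < v.ord s := by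
    rw [hs', v.ord_inv]
    omega
  have hδs : δ s = 0 := by
    rw [hs', Derivation.leibniz_inv, hδx, smul_zero]
  set ds : Derivation Ω E E := (-(X 1) ^ 2) • dx with hds
  have hdsa : ∀ g, ds g = (-(X 1) ^ 2) * dx g := fun g => rfl
  have hdss : ds s = 1 := by
    rw [hdsa, hs', Derivation.leibniz_inv, hdx, smul_eq_mul]
    field_simp
  have hreg : ∀ j, Ge v 0 (δ (X' j)) := fun j => ha Ω E D δ hδ s v hso hδs 0 (X' j) (hv j)
  have hlast : ∀ j, Ge v 1 (X 1 * dx (X' j)) := by
    intro j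
    have h1 := (ge_der hb ds hso hdss (hv j)).neg
    rw [hdsa] at h1
    have e : -(s * (-X 1 ^ 2 * dx (X' j))) = X 1 * dx (X' j) := by
      rw [hs']
      field_simp
    rwa [e] at h1
  have hgr : grd F X (fun l => algebraMap Ω E (c l)) =
      X 1 ^ (d - 1) * grd F X' (fun l => algebraMap Ω E (c l)) := by
    unfold grd
    rw [Finset.mul_sum]
    refine Finset.sum_congr rfl fun l _ => ?_
    have h1 := aeval_smul_form (pderiv_hom hFd l) (X 1) X'
    have h2 : (fun l => X 1 * X' l) = X := by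
      ext j
      exact (hXX' j).symm
    rw [h2] at h1
    rw [h1]
    ring
  have hW : W (fun l => algebraMap Ω E (c l)) X (fun j => δ (X j)) (fun j => dx (X j)) =
      X 1 ^ 3 * W (fun l => algebraMap Ω E (c l)) X' (fun j => δ (X' j)) (fun j => dx (X' j)) := by
    rw [← W_scale]
    have e1 : X = fun j => X 1 * X' j := by
      ext j
      exact hXX' j
    have e2 : (fun j => δ (X j)) = fun j => X 1 * δ (X' j) := by
      ext j
      rw [hXX' j, Derivation.leibniz, hδx, smul_zero, add_zero, smul_eq_mul]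
    have e3 : (fun j => dx (X j)) = fun j => X' j + X 1 * dx (X' j) := by
      ext j
      rw [hXX' j, Derivation.leibniz, hdx, smul_eq_mul, smul_eq_mul, mul_one]
      ring
    rw [e2, e3]
    exact congrArg (fun Y : Fin 4 → E => W (fun l => algebraMap Ω E (c l)) Y
      (fun j => X 1 * δ (X' j)) (fun j => X' j + X 1 * dx (X' j))) e1
  have hrel := hh (fun l => algebraMap Ω E (c l))
  rw [hW, hgr] at hrel
  have e : X 1 ^ (k + 1) * h = s ^ (d - 4 - k) *
      (W (fun l => algebraMap Ω E (c l)) X' (fun j => δ (X' j)) (fun j => X 1 * dx (X' j)) *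
        (grd F X' fun l => algebraMap Ω E (c l))⁻¹) := by
    rw [W_mul_last]
    obtain ⟨m, rfl⟩ : ∃ m, d = m + k + 4 := ⟨d - 4 - k, by omega⟩
    have e1 : m + k + 4 - 4 - k = m := by omega
    have e2 : m + k + 4 - 1 = m + k + 3 := by omega
    rw [e1]
    rw [e2] at hrel
    have h3 : X 1 ^ 3 ≠ 0 := pow_ne_zero _ hx0
    have h4 : W (fun l => algebraMap Ω E (c l)) X' (fun j => δ (X' j)) (fun j => dx (X' j)) =
        X 1 ^ (m + k) * grd F X' (fun l => algebraMap Ω E (c l)) * h := by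
      apply mul_left_cancel₀ h3
      rw [hrel]
      ring
    have h5 : X 1 ^ m * s ^ m = 1 := by
      rw [hs', ← mul_pow, mul_inv_cancel₀ hx0, one_pow]
    have hG := mul_inv_cancel₀ hc0
    rw [h4]
    linear_combination (-(X 1 ^ (k + 1) * h) * (grd F X' fun l => algebraMap Ω E (c l)) *
      (grd F X' fun l => algebraMap Ω E (c l))⁻¹) * h5 - (X 1 ^ (k + 1) * h) * hG
  rw [e]
  refine Ge_mul0 ?_ (Ge_mul1 (Ge_det (fun j => Ge.const _) hv hreg hlast) hc1)
  have h1 : Ge v 0 s := Or.inr hso.le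
  have := h1.pow (d - 4 - k)
  rwa [mul_zero] at this

end

end Pool.Agent.N624.CV
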