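import Pool.Agent.N624.CV.N2

/-! Project CV (helper162), task CV/N (helper624): monomials of low degree span. -/

set_option autoImplicit false
set_option linter.unusedSectionVars false

open FF Pool.Agent.W603.LV Pool.Agent.Y184.NT Pool.Agent.N162.BC IntermediateField
open Pool.Agent.N162.CV Pool.Agent.Y988.NT

namespace Pool.Agent.N624.CV

section span

variable {Ω E : Type} [Field Ω] [Field E] [Algebra Ω E]

/-- the span of the monomials of degree at most `k` -/
def V (L : IntermediateField Ω E) (y z : E) (k : ℕ) : Submodule L E :=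
  Submodule.span L {g | ∃ i j : ℕ, i + j ≤ k ∧ g = y ^ i * z ^ j}

variable {L : IntermediateField Ω E} {y z : E}

lemma V_mem {i j k : ℕ} (h : i + j ≤ k) : y ^ i * z ^ j ∈ V L y z k :=
  Submodule.subset_span ⟨i, j, h, rfl⟩

lemma V_mono {k m : ℕ} (h : k ≤ m) : V L y z k ≤ V L y z m := by
  apply Submodule.span_mono
  rintro g ⟨i, j, hij, rfl⟩
  exact ⟨i, j, hij.trans h, rfl⟩

lemma V_y {k : ℕ} {g : E} (hg : g ∈ V L y z k) : y * g ∈ V L y z (k + 1) := by
  refine Submodule.span_induction (p := fun g _ => y * g ∈ V L y z (k + 1)) ?_ ?_ ?_ ?_ hg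
  · rintro _ ⟨i, j, hij, rfl⟩
    have : y * (y ^ i * z ^ j) = y ^ (i + 1) * z ^ j := by ring
    change y * (y ^ i * z ^ j) ∈ _
    rw [this]
    exact V_mem (by omega)
  · rw [mul_zero]
    exact Submodule.zero_mem _
  · intro a b _ _ ha hb
    change y * (a + b) ∈ _
    rw [mul_add]
    exact Submodule.add_mem _ ha hb
  · intro c a _ ha
    change y * (c • a) ∈ _
    rw [mul_smul_comm]
    exact Submodule.smul_mem _ _ ha

lemma V_z {k : ℕ} {g : E} (hg : g ∈ V L y z k) : z * g ∈ V L y z (k + 1) := by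
  refine Submodule.span_induction (p := fun g _ => z * g ∈ V L y z (k + 1)) ?_ ?_ ?_ ?_ hg
  · rintro _ ⟨i, j, hij, rfl⟩
    have : z * (y ^ i * z ^ j) = y ^ i * z ^ (j + 1) := by ring
    change z * (y ^ i * z ^ j) ∈ _
    rw [this]
    exact V_mem (by omega)
  · rw [mul_zero]
    exact Submodule.zero_mem _
  · intro a b _ _ ha hb
    change z * (a + b) ∈ _
    rw [mul_add]
    exact Submodule.add_mem _ ha hb
  · intro c a _ ha
    change z * (c • a) ∈ _
    rw [mul_smul_comm]
    exact Submodule.smul_mem _ _ ha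

/-- the stabilizer of a subspace -/
def stab (M : Submodule L E) : Subalgebra L E where
  carrier := {g | ∀ f ∈ M, g * f ∈ M}
  mul_mem' := by
    intro a b ha hb f hf
    rw [mul_assoc]
    exact ha _ (hb _ hf)
  add_mem' := by
    intro a b ha hb f hf
    rw [add_mul]
    exact M.add_mem (ha _ hf) (hb _ hf)
  algebraMap_mem' := by
    intro r f hf
    rw [← Algebra.smul_def]
    exact M.smul_mem _ hf

lemma mem_stab {M : Submodule L E} {g : E} : g ∈ stab M ↔ ∀ f ∈ M, g * f ∈ M := Iff.rfl

lemma V_top {X : Fin 4 → E} (hX0 : X 0 = 1) (hX1 : X 1 ∈ L) (hgen : adjoin Ω (Set.range X) = ⊤)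
    [FiniteDimensional L E] {k : ℕ} (h : V L (X 2) (X 3) (k + 1) ≤ V L (X 2) (X 3) k) :
    V L (X 2) (X 3) k = ⊤ := by
  set M := V L (X 2) (X 3) k with hM
  have h2 : X 2 ∈ stab M := mem_stab.2 fun f hf => h (V_y hf)
  have h3 : X 3 ∈ stab M := mem_stab.2 fun f hf => h (V_z hf)
  have hinv : ∀ g ∈ stab M, g⁻¹ ∈ stab M := by
    intro g hg
    exact Subalgebra.inv_mem_of_algebraic (A := stab M) (x := ⟨g, hg⟩)
      (Algebra.IsAlgebraic.isAlgebraic (R := L) (g : E))
  set S : IntermediateField L E := (stab M).toIntermediateField hinv with hS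
  have hSm : ∀ g, g ∈ S ↔ g ∈ stab M := fun g => Iff.rfl
  have hle : adjoin Ω (Set.range X) ≤ S.restrictScalars Ω := by
    rw [adjoin_le_iff]
    rintro _ ⟨j, rfl⟩
    change X j ∈ S
    fin_cases j
    · change X 0 ∈ S
      rw [hX0]
      exact S.one_mem
    · exact S.algebraMap_mem ⟨X 1, hX1⟩
    · exact h2
    · exact h3
  rw [hgen, top_le_iff] at hle
  rw [eq_top_iff]
  intro g _
  have hg : g ∈ S.restrictScalars Ω := by
    rw [hle]
    exact IntermediateField.mem_top
  have hg2 : g ∈ stab M := hg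
  have h1 : (1 : E) ∈ M := by
    have := V_mem (L := L) (y := X 2) (z := X 3) (i := 0) (j := 0) (k := k) (by omega)
    simpa using this
  have := mem_stab.1 hg2 1 h1
  rwa [mul_one] at this

lemma V_dim {X : Fin 4 → E} (hX0 : X 0 = 1) (hX1 : X 1 ∈ L) (hgen : adjoin Ω (Set.range X) = ⊤)
    [FiniteDimensional L E] (k : ℕ) : V L (X 2) (X 3) k = ⊤ ∨
      k + 1 ≤ Module.finrank L (V L (X 2) (X 3) k) := by
  induction k with
  | zero =>
    right
    rw [zero_add, Submodule.one_le_finrank_iff]
    intro h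
    have h1 : (1 : E) ∈ V L (X 2) (X 3) 0 := by
      have := V_mem (L := L) (y := X 2) (z := X 3) (i := 0) (j := 0) (k := 0) (by omega)
      simpa using this
    rw [h, Submodule.mem_bot] at h1
    exact one_ne_zero h1
  | succ k ih =>
    rcases ih with ih | ih
    · left
      rw [eq_top_iff, ← ih]
      exact V_mono (Nat.le_succ k)
    · by_cases h : V L (X 2) (X 3) (k + 1) ≤ V L (X 2) (X 3) k
      · left
        rw [eq_top_iff, ← V_top hX0 hX1 hgen h]
        exact V_mono (Nat.le_succ k)
      · right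
        have hlt : V L (X 2) (X 3) k < V L (X 2) (X 3) (k + 1) :=
          lt_of_le_not_ge (V_mono (Nat.le_succ k)) h
        have := Submodule.finrank_lt_finrank_of_lt hlt
        omega

lemma V_eq_top {X : Fin 4 → E} (hX0 : X 0 = 1) (hX1 : X 1 ∈ L)
    (hgen : adjoin Ω (Set.range X) = ⊤) [FiniteDimensional L E] {k : ℕ}
    (hk : Module.finrank L E ≤ k + 1) : V L (X 2) (X 3) k = ⊤ := by
  rcases V_dim hX0 hX1 hgen k with h | h
  · exact h
  · apply Submodule.eq_top_of_finrank_eq
    exact le_antisymm (Submodule.finrank_le _) (hk.trans h)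

lemma zero_of_trace {X : Fin 4 → E} (hX0 : X 0 = 1) (hX1 : X 1 ∈ L)
    (hgen : adjoin Ω (Set.range X) = ⊤) [FiniteDimensional L E] [CharZero E] {k : ℕ}
    (hk : Module.finrank L E ≤ k + 1) {h : E}
    (ht : ∀ i j, i + j ≤ k → Algebra.trace L E (X 2 ^ i * X 3 ^ j * h) = 0) : h = 0 := by
  by_contra h0
  have hV := V_eq_top hX0 hX1 hgen hk
  have key : ∀ g ∈ V L (X 2) (X 3) k, Algebra.trace L E (g * h) = 0 := by
    intro g hg
    refine Submodule.span_induction (p := fun g _ => Algebra.trace L E (g * h) = 0)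
      ?_ ?_ ?_ ?_ hg
    · rintro _ ⟨i, j, hij, rfl⟩
      exact ht i j hij
    · change Algebra.trace L E (0 * h) = 0
      rw [zero_mul, map_zero]
    · intro a b _ _ ha hb
      change Algebra.trace L E ((a + b) * h) = 0
      rw [add_mul, map_add, ha, hb, add_zero]
    · intro c a _ ha
      change Algebra.trace L E ((c • a) * h) = 0
      rw [smul_mul_assoc, map_smul, ha, smul_zero]
  have h1 := key h⁻¹ (by rw [hV]; exact Submodule.mem_top)
  rw [inv_mul_cancel₀ h0] at h1
  have h2 := Algebra.trace_algebraMap (R := L) (S := E) (1 : L)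
  rw [map_one, h1] at h2
  have h3 : (Module.finrank L E : L) = 0 := by
    simpa using h2.symm
  have h4 : Module.finrank L E = 0 := by
    have h6 := congrArg (algebraMap L E) h3
    rw [map_natCast, map_zero] at h6
    exact_mod_cast h6
  have h5 : 0 < Module.finrank L E := Module.finrank_pos
  omega

end span

end Pool.Agent.N624.CV
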